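import Pool.Agent.Lib.MP_987db6_al.T3M

namespace Pool.Agent.Results.MP_987db6_al.OddPrime

/-- `Sub_G(x)`: the subgroup generated by all `g` such that `⟨x⟩` is subnormal in `⟨x, g⟩`. -/
def subnormalizer {G : Type} [Group G] (x : G) : Subgroup G :=
  Subgroup.closure
    {g | ((Subgroup.zpowers x).subgroupOf (Subgroup.closure {x, g})).IsSubnormal}

/-- `Irr^x(G)`: the irreducible complex characters of `G` that do not vanish at `x`. -/
def irrAt {G : Type} [Group G] (x : G) : Set (G → ℂ) :=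
  {χ | (∃ V : FDRep ℂ G, CategoryTheory.Simple V ∧ V.character = χ) ∧ χ x ≠ 0}

/-- There are a finite group `G` and an element `x` of order three such that no injective
map `Irr^x(G) → Irr^x(Sub_G(x))` preserves the `3`-part of the degree. -/
theorem result : ∃ (G : Type) (_ : Group G) (_ : Finite G) (x : G) (hx : x ∈ subnormalizer x),
    orderOf x = 3 ∧
    ¬ ∃ f : irrAt x → irrAt (⟨x, hx⟩ : subnormalizer x), Function.Injective f ∧
      ∀ χ, ∀ n m : ℕ, (f χ).1 1 = n → χ.1 1 = m → padicValNat 3 n = padicValNat 3 m := by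
  have e : subnormalizer Lib.MP_987db6_al.x3 =
      Lib.MP_987db6_al.wrS3 Lib.MP_987db6_al.io.range := by
    rw [subnormalizer, Lib.MP_987db6_al.dat_x3.set_eq', Subgroup.closure_eq]
  refine ⟨_, inferInstance, inferInstance, Lib.MP_987db6_al.x3,
    e ▸ Lib.MP_987db6_al.dat_x3.le Lib.MP_987db6_al.dat_x3.mem,
    Lib.MP_987db6_al.order_x3, ?_⟩
  rintro ⟨f, hf, hd⟩
  exact Lib.MP_987db6_al.no_inj3 _ e _ rfl f hf hd

end Pool.Agent.Results.MP_987db6_al.OddPrime
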